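import Mathlib
import Pool.Agent.U309.ZF.Stm

/-! Project ZF, package IDX: the index of `𝓞 K ⊗ 𝓞 K` in `𝓞 K × 𝓞 K₂`. -/

set_option autoImplicit false

open NumberField Module
open scoped TensorProduct Matrix Kronecker

namespace Pool.Agent.U109.ZF

section gen

variable {A B : Type} [CommRing A] [CommRing B] [Algebra ℚ A] [Algebra ℚ B]
  [FiniteDimensional ℚ A] [FiniteDimensional ℚ B]

theorem trace_tmul (x : A) (y : B) :
    Algebra.trace ℚ (A ⊗[ℚ] B) (x ⊗ₜ[ℚ] y) = Algebra.trace ℚ A x * Algebra.trace ℚ B y := by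
  rw [Algebra.trace_apply, Algebra.trace_apply, Algebra.trace_apply,
    ← LinearMap.trace_tensorProduct']
  congr 1
  apply TensorProduct.ext'
  intro a b
  simp

variable {ι κ : Type} [Fintype ι] [Fintype κ] [DecidableEq ι] [DecidableEq κ]

theorem discr_tensor (b : ι → A) (c : κ → B) :
    Algebra.discr ℚ (fun p : ι × κ => b p.1 ⊗ₜ[ℚ] c p.2) =
      Algebra.discr ℚ b ^ Fintype.card κ * Algebra.discr ℚ c ^ Fintype.card ι := by
  rw [Algebra.discr_def, Algebra.discr_def, Algebra.discr_def, ← Matrix.det_kronecker]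
  congr 1
  ext p p'
  simp only [Algebra.traceMatrix_apply, Algebra.traceForm_apply, Matrix.kroneckerMap_apply,
    Algebra.TensorProduct.tmul_mul_tmul]
  exact trace_tmul _ _

theorem discr_prod (b : Basis ι ℚ A) (c : Basis κ ℚ B) :
    Algebra.discr ℚ (b.prod c) = Algebra.discr ℚ b * Algebra.discr ℚ c := by
  have h : Algebra.traceMatrix ℚ (b.prod c) =
      Matrix.fromBlocks (Algebra.traceMatrix ℚ b) 0 0 (Algebra.traceMatrix ℚ c) := by
    ext i j
    rcases i with i | i <;> rcases j with j | j <;>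
      simp [Algebra.traceMatrix_apply, Algebra.traceForm_apply, Algebra.trace_prod_apply]
  rw [Algebra.discr_def, h, Matrix.det_fromBlocks_zero₂₁, ← Algebra.discr_def,
    ← Algebra.discr_def]

end gen

section main

variable {K K₂ : Type} [Field K] [NumberField K] [Field K₂] [NumberField K₂]

theorem integral_fst (e : (K ⊗[ℚ] K) ≃ₐ[ℚ] (K × K₂)) (x y : 𝓞 K) :
    ∃ (X : 𝓞 K) (Y : 𝓞 K₂), e ((x : K) ⊗ₜ[ℚ] (y : K)) = ((X : K), (Y : K₂)) := by
  let iL : K →+* (K ⊗[ℚ] K) := Algebra.TensorProduct.includeLeftRingHom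
  let iR : K →+* (K ⊗[ℚ] K) := (Algebra.TensorProduct.includeRight (R := ℚ) (A := K) (B := K)).toRingHom
  let e' : (K ⊗[ℚ] K) →+* (K × K₂) := (e : (K ⊗[ℚ] K) →+* (K × K₂))
  have hxy : (x : K) ⊗ₜ[ℚ] (y : K) = iL x * iR y := by
    change _ = ((x : K) ⊗ₜ[ℚ] (1 : K)) * ((1 : K) ⊗ₜ[ℚ] (y : K))
    rw [Algebra.TensorProduct.tmul_mul_tmul, one_mul, mul_one]
  have h1 : ∀ {L : Type} [Field L] (g : (K × K₂) →+* L), IsIntegral ℤ (g (e' ((x : K) ⊗ₜ[ℚ] (y : K)))) := by
    intro L _ g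
    rw [hxy, map_mul, map_mul]
    refine IsIntegral.mul ?_ ?_
    · exact map_isIntegral_int (g.comp (e'.comp iL)) (RingOfIntegers.isIntegral_coe x)
    · exact map_isIntegral_int (g.comp (e'.comp iR)) (RingOfIntegers.isIntegral_coe y)
  have h4 : IsIntegral ℤ (e ((x : K) ⊗ₜ[ℚ] (y : K))).1 := h1 (RingHom.fst K K₂)
  have h5 : IsIntegral ℤ (e ((x : K) ⊗ₜ[ℚ] (y : K))).2 := h1 (RingHom.snd K K₂)
  exact ⟨⟨_, h4⟩, ⟨_, h5⟩, rfl⟩

theorem sum_repr_coe (x : 𝓞 K) :
    ∑ a, ((RingOfIntegers.basis K).repr x a : ℚ) • (integralBasis K a : K) = (x : K) := by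
  have h := congrArg (algebraMap (𝓞 K) K) ((RingOfIntegers.basis K).sum_repr x)
  rw [map_sum] at h
  refine Eq.trans (Finset.sum_congr rfl fun a _ => ?_) h
  rw [integralBasis_apply, map_zsmul, Int.cast_smul_eq_zsmul]

theorem prod_sum (c : Free.ChooseBasisIndex ℤ (𝓞 K) ⊕ Free.ChooseBasisIndex ℤ (𝓞 K₂) → ℚ) :
    ∑ j, c j • ((integralBasis K).prod (integralBasis K₂)) j =
      (∑ a, c (Sum.inl a) • integralBasis K a, ∑ a, c (Sum.inr a) • integralBasis K₂ a) := by
  rw [Fintype.sum_sum_type]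
  ext <;> simp [Prod.fst_sum, Prod.snd_sum]

theorem sum_pair (x : 𝓞 K) (y : 𝓞 K₂) :
    ∑ j, ((Sum.elim (fun a => (RingOfIntegers.basis K).repr x a)
      (fun a => (RingOfIntegers.basis K₂).repr y a) j : ℤ) : ℚ) •
        ((integralBasis K).prod (integralBasis K₂)) j = ((x : K), (y : K₂)) := by
  rw [prod_sum]
  simp only [Sum.elim_inl, Sum.elim_inr]
  rw [sum_repr_coe, sum_repr_coe]

theorem t_IDX : Pool.Agent.U309.ZF.S_IDX := by
  intro K K₂ _ _ _ _ e
  classical
  have hfin : finrank ℚ K₂ + finrank ℚ K = finrank ℚ K ^ 2 := by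
    have h := e.toLinearEquiv.finrank_eq
    rw [Module.finrank_tensorProduct, Module.finrank_prod] at h
    rw [sq, h, add_comm]
  refine ⟨hfin, ?_⟩
  have c1 : Fintype.card (Free.ChooseBasisIndex ℤ (𝓞 K)) = finrank ℚ K :=
    (finrank_eq_card_basis (integralBasis K)).symm
  have c2 : Fintype.card (Free.ChooseBasisIndex ℤ (𝓞 K₂)) = finrank ℚ K₂ :=
    (finrank_eq_card_basis (integralBasis K₂)).symm
  let σ : Free.ChooseBasisIndex ℤ (𝓞 K) ⊕ Free.ChooseBasisIndex ℤ (𝓞 K₂) ≃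
      Free.ChooseBasisIndex ℤ (𝓞 K) × Free.ChooseBasisIndex ℤ (𝓞 K) :=
    Fintype.equivOfCardEq (by
      rw [Fintype.card_sum, Fintype.card_prod, c1, c2, add_comm, hfin, sq])
  set β := RingOfIntegers.basis K with hβ
  set b := integralBasis K with hb
  set β₂ := RingOfIntegers.basis K₂ with hβ₂
  set b₂ := integralBasis K₂ with hb₂
  choose X Y hXY using fun p : Free.ChooseBasisIndex ℤ (𝓞 K) × Free.ChooseBasisIndex ℤ (𝓞 K) =>
    integral_fst e (β p.1) (β p.2)
  let Q : Matrix (Free.ChooseBasisIndex ℤ (𝓞 K) ⊕ Free.ChooseBasisIndex ℤ (𝓞 K₂))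
      (Free.ChooseBasisIndex ℤ (𝓞 K) ⊕ Free.ChooseBasisIndex ℤ (𝓞 K₂)) ℤ :=
    Matrix.of fun j i => Sum.elim (fun a => β.repr (X (σ i)) a) (fun a => β₂.repr (Y (σ i)) a) j
  have hrel : ∀ i, e ((β (σ i).1 : K) ⊗ₜ[ℚ] (β (σ i).2 : K)) = ∑ j, (Q j i : ℚ) • (b.prod b₂) j := by
    intro i
    rw [hXY]
    exact (sum_pair (X (σ i)) (Y (σ i))).symm
  -- the discriminants
  have hdisc : (NumberField.discr K : ℚ) ^ (2 * finrank ℚ K) =
      (Q.det : ℚ) ^ 2 * ((NumberField.discr K : ℚ) * NumberField.discr K₂) := by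
    have e1 : Algebra.discr ℚ (b.tensorProduct b) = (NumberField.discr K : ℚ) ^ (2 * finrank ℚ K) := by
      have := discr_tensor (b : _ → K) (b : _ → K)
      rw [c1, ← pow_add, ← two_mul, hb, ← NumberField.coe_discr] at this
      rw [← this]
      congr 1
      ext p
      rw [Basis.tensorProduct_apply']
    have e2 : Algebra.discr ℚ (b.prod b₂) = (NumberField.discr K : ℚ) * NumberField.discr K₂ := by
      rw [discr_prod, hb, hb₂, ← NumberField.coe_discr, ← NumberField.coe_discr]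
    have e3 : (e ∘ (b.tensorProduct b ∘ σ)) =
        (b.prod b₂ : _ → K × K₂) ᵥ* ((Q.map (Int.cast : ℤ → ℚ)).map (algebraMap ℚ (K × K₂))) := by
      ext1 i
      have : (e ∘ (b.tensorProduct b ∘ σ)) i = e ((β (σ i).1 : K) ⊗ₜ[ℚ] (β (σ i).2 : K)) := by
        simp only [Function.comp_apply]
        rw [Basis.tensorProduct_apply', hb, integralBasis_apply, integralBasis_apply]
      rw [this, hrel]
      simp only [Matrix.vecMul, dotProduct, Matrix.map_apply]
      refine Finset.sum_congr rfl fun j _ => ?_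
      rw [Algebra.smul_def, mul_comm]
    have e4 := Algebra.discr_of_matrix_vecMul (A := ℚ) (b.prod b₂ : _ → K × K₂)
      (Q.map (Int.cast : ℤ → ℚ))
    rw [← e3, ← Algebra.discr_eq_discr_of_algEquiv, e2] at e4
    have e5 : Algebra.discr ℚ (b.tensorProduct b ∘ σ) = Algebra.discr ℚ (b.tensorProduct b) := by
      have := Algebra.discr_reindex ℚ (b.tensorProduct b) σ.symm
      rwa [Equiv.symm_symm] at this
    rw [e5, e1] at e4
    rw [e4]
    congr 2
    have := (Int.castRingHom ℚ).map_det Q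
    rw [RingHom.mapMatrix_apply] at this
    exact this.symm
  refine ⟨Q.det, ?_, ?_, ?_⟩
  · intro h0
    rw [h0] at hdisc
    have h1 : (NumberField.discr K : ℚ) ≠ 0 := by exact_mod_cast NumberField.discr_ne_zero K
    apply pow_ne_zero (2 * finrank ℚ K) h1
    rw [hdisc]
    simp
  · exact_mod_cast hdisc
  · intro x y
    set c : Free.ChooseBasisIndex ℤ (𝓞 K) ⊕ Free.ChooseBasisIndex ℤ (𝓞 K₂) → ℤ :=
      Sum.elim (fun a => β.repr x a) (fun a => β₂.repr y a) with hc
    set d := Q.adjugate *ᵥ c with hd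
    have hQd : Q *ᵥ d = Q.det • c := by
      rw [hd, Matrix.mulVec_mulVec, Matrix.mul_adjugate, Matrix.smul_mulVec, Matrix.one_mulVec]
    refine ⟨Finset.univ.toList.map fun i => (d i • β (σ i).1, β (σ i).2), ?_⟩
    rw [List.map_map, Finset.sum_map_toList, map_sum]
    have s1 : ∀ i, e (((fun u : 𝓞 K × 𝓞 K => (u.1 : K) ⊗ₜ[ℚ] (u.2 : K)) ∘
        fun i => (d i • β (σ i).1, β (σ i).2)) i) = (d i : ℚ) • ∑ j, (Q j i : ℚ) • (b.prod b₂) j := by
      intro i
      rw [← hrel, ← map_smul]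
      congr 1
      simp only [Function.comp_apply]
      rw [TensorProduct.smul_tmul']
      congr 1
      rw [Int.cast_smul_eq_zsmul]
      exact map_zsmul (algebraMap (𝓞 K) K) _ _
    rw [Finset.sum_congr rfl fun i _ => s1 i]
    simp only [Finset.smul_sum]
    rw [Finset.sum_comm]
    have s2 : ∀ j, ∑ i, (d i : ℚ) • (Q j i : ℚ) • (b.prod b₂) j =
        (Q.det : ℚ) • ((c j : ℚ) • (b.prod b₂) j) := by
      intro j
      have := congrFun hQd j
      simp only [Matrix.mulVec, dotProduct, Pi.smul_apply, smul_eq_mul] at this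
      rw [smul_smul]
      have h2 : ((Q.det : ℚ) * (c j : ℚ)) = ∑ i, (Q j i : ℚ) * (d i : ℚ) := by
        exact_mod_cast this.symm
      rw [h2, Finset.sum_smul]
      refine Finset.sum_congr rfl fun i _ => ?_
      rw [smul_smul, mul_comm]
    rw [Finset.sum_congr rfl fun j _ => s2 j, ← Finset.smul_sum, Int.cast_smul_eq_zsmul]
    congr 1
    exact sum_pair x y

end main

end Pool.Agent.U109.ZF
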